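import Mathlib
set_option autoImplicit false

/-! Condensation of singularities at all scales with independent coefficients. -/

namespace Pool.Agent.Q193.RD

open Filter Topology Set

/-- Every sequence of requirements can be met slowly. -/
theorem slow_choice (B : ℕ → ℝ) : ∃ (m : ℕ → ℕ) (K : ℝ), Tendsto m atTop atTop ∧ 0 < K ∧
    ∀ i : ℕ, B (m i) ≤ K * (i + 1) := by
  classical
  set K : ℝ := |B 0| + 1 with hK
  have hK0 : 0 < K := by positivity
  let P : ℕ → ℕ → Prop := fun i m => ∀ l ≤ m, B l ≤ K * (i + 1)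
  have hP0 : ∀ i, P i 0 := by
    intro i l hl
    have hl0 : l = 0 := by omega
    subst hl0
    have h1 : B 0 ≤ K := by
      have := le_abs_self (B 0)
      linarith
    have h2 : (0 : ℝ) ≤ i := Nat.cast_nonneg i
    nlinarith
  refine ⟨fun i => Nat.findGreatest (P i) i, K, ?_, hK0, fun i => ?_⟩
  · rw [tendsto_atTop]
    intro b
    obtain ⟨T, hT⟩ : ∃ T : ℝ, ∀ l ≤ b, B l ≤ T := by
      refine ⟨∑ l ∈ Finset.range (b + 1), |B l|, fun l hl => ?_⟩
      exact (le_abs_self _).trans (Finset.single_le_sum (f := fun l => |B l|)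
        (fun _ _ => abs_nonneg _) (Finset.mem_range.2 (by omega)))
    obtain ⟨i0, hi0⟩ := exists_nat_ge (T / K)
    filter_upwards [eventually_ge_atTop b, eventually_ge_atTop i0] with i hi1 hi2
    refine Nat.le_findGreatest hi1 fun l hl => (hT l hl).trans ?_
    have h1 : T / K ≤ i := hi0.trans (by exact_mod_cast hi2)
    rw [div_le_iff₀ hK0] at h1
    nlinarith
  · exact Nat.findGreatest_spec (P := P i) (Nat.zero_le i) (hP0 i) _ le_rfl

variable {X : Type*} [NormedAddCommGroup X] [NormedSpace ℝ X] [CompleteSpace X]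

/-- The index of the coefficients. -/
abbrev Om := (i : ℕ) → Fin ((i + 2) ^ 2)

/-- The value of the coefficient. -/
noncomputable def gv (i : ℕ) (t : Fin ((i + 2) ^ 2)) : ℝ := (t : ℕ) / ((i : ℝ) + 2) ^ 2

lemma gv_nn (i : ℕ) (t : Fin ((i + 2) ^ 2)) : 0 ≤ gv i t := by
  unfold gv
  positivity

lemma gv_le (i : ℕ) (t : Fin ((i + 2) ^ 2)) : gv i t ≤ 1 := by
  unfold gv
  rw [div_le_one (by positivity)]
  have := t.2.le
  exact_mod_cast this

lemma gv_sep (i : ℕ) {t s : Fin ((i + 2) ^ 2)} (h : t ≠ s) :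
    1 / ((i : ℝ) + 2) ^ 2 ≤ |gv i t - gv i s| := by
  unfold gv
  rw [← sub_div, abs_div, abs_of_pos (show (0 : ℝ) < ((i : ℝ) + 2) ^ 2 by positivity)]
  refine div_le_div_of_nonneg_right ?_ (by positivity)
  have h1 : ((t : ℕ) : ℤ) - ((s : ℕ) : ℤ) ≠ 0 := by
    intro h0
    apply h
    ext
    omega
  have h2 := Int.one_le_abs h1
  exact_mod_cast h2

/-- The series with the given coefficients. -/
noncomputable def comb (a : ℕ → ℝ) (x : ℕ → X) (t : Om) : X :=
  ∑' i, (a i * gv i (t i)) • x i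

variable {a : ℕ → ℝ} {x : ℕ → X} {M : ℝ}

lemma term_le (ha : ∀ i, 0 ≤ a i) (hx : ∀ i, ‖x i‖ ≤ M) (t : Om) (i : ℕ) :
    ‖(a i * gv i (t i)) • x i‖ ≤ a i * M := by
  rw [norm_smul, Real.norm_eq_abs, abs_of_nonneg (mul_nonneg (ha i) (gv_nn _ _))]
  have h1 : a i * gv i (t i) ≤ a i := mul_le_of_le_one_right (ha i) (gv_le _ _)
  exact mul_le_mul h1 (hx i) (norm_nonneg _) (ha i)

lemma term_summable (ha : ∀ i, 0 ≤ a i) (hs : Summable a) (hx : ∀ i, ‖x i‖ ≤ M) (t : Om) :
    Summable fun i => (a i * gv i (t i)) • x i :=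
  Summable.of_norm_bounded (hs.mul_right M) (term_le ha hx t)

lemma comb_cont (ha : ∀ i, 0 ≤ a i) (hs : Summable a) (hx : ∀ i, ‖x i‖ ≤ M) :
    Continuous (comb a x) := by
  unfold comb
  refine continuous_tsum (fun i => ?_) (hs.mul_right M) (fun i t => term_le ha hx t i)
  have h1 : Continuous fun s : Fin ((i + 2) ^ 2) => (a i * gv i s) • x i :=
    continuous_of_discreteTopology
  exact h1.comp (continuous_apply i)

lemma comb_sub (ha : ∀ i, 0 ≤ a i) (hs : Summable a) (hx : ∀ i, ‖x i‖ ≤ M) (t s : Om) (i : ℕ)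
    (h : ∀ j, j ≠ i → t j = s j) :
    comb a x t - comb a x s = (a i * (gv i (t i) - gv i (s i))) • x i := by
  unfold comb
  rw [← (term_summable ha hs hx t).tsum_sub (term_summable ha hs hx s), tsum_eq_single i]
  · rw [← sub_smul]
    congr 1
    ring
  · intro j hj
    rw [h j hj, sub_self]

/-- The threshold. -/
noncomputable def th (a : ℕ → ℝ) (x : ℕ → X) (P : ℕ → Seminorm ℝ X) (i : ℕ) : ℝ :=
  a i * P i (x i) / (2 * ((i : ℝ) + 2) ^ 2)

lemma one_bad (ha : ∀ i, 0 ≤ a i) (hs : Summable a) (hx : ∀ i, ‖x i‖ ≤ M)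
    (P : ℕ → Seminorm ℝ X) (t s : Om) (i : ℕ) (h : ∀ j, j ≠ i → t j = s j)
    (ht : P i (comb a x t) < th a x P i) (hs' : P i (comb a x s) < th a x P i) : t i = s i := by
  by_contra hne
  have h1 : P i (comb a x t - comb a x s) < 2 * th a x P i := by
    have := map_sub_le_add (P i) (comb a x t) (comb a x s)
    linarith
  rw [comb_sub ha hs hx t s i h, map_smul_eq_mul, Real.norm_eq_abs, abs_mul,
    abs_of_nonneg (ha i)] at h1
  have h2 := gv_sep i hne
  have h3 : 2 * th a x P i = a i * (1 / ((i : ℝ) + 2) ^ 2) * P i (x i) := by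
    unfold th
    field_simp
  rw [h3] at h1
  have h4 : 0 ≤ P i (x i) := apply_nonneg _ _
  have h5 : a i * (1 / ((i : ℝ) + 2) ^ 2) * P i (x i) ≤
      a i * |gv i (t i) - gv i (s i)| * P i (x i) :=
    mul_le_mul_of_nonneg_right (mul_le_mul_of_nonneg_left h2 (ha i)) h4
  linarith

lemma zpos (i : ℕ) : 0 < (i + 2) ^ 2 := by positivity

/-- extension by zero -/
def ext0 (K : ℕ) (t : (i : Fin K) → Fin (((i : ℕ) + 2) ^ 2)) : Om := fun i =>
  if h : i < K then t ⟨i, h⟩ else ⟨0, zpos i⟩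

lemma ext0_of {K : ℕ} (t : (i : Fin K) → Fin (((i : ℕ) + 2) ^ 2)) (i : Fin K) :
    ext0 K t i = t i := by
  unfold ext0
  rw [dif_pos i.2]

lemma sum_inv (K : ℕ) : ∑ i : Fin K, (1 : ℝ) / (((i : ℕ) : ℝ) + 2) ^ 2 ≤ 1 - 1 / ((K : ℝ) + 1) := by
  rw [Fin.sum_univ_eq_sum_range (fun i : ℕ => (1 : ℝ) / ((i : ℝ) + 2) ^ 2) K]
  induction K with
  | zero => simp
  | succ K ih =>
    rw [Finset.sum_range_succ]
    have h1 : (1 : ℝ) / ((K : ℝ) + 2) ^ 2 ≤ 1 / ((K : ℝ) + 1) - 1 / ((K : ℝ) + 2) := by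
      rw [div_sub_div _ _ (by positivity) (by positivity), div_le_div_iff₀ (by positivity)
        (by positivity)]
      have : (0 : ℝ) ≤ K := Nat.cast_nonneg K
      nlinarith
    push_cast
    have e : (K : ℝ) + 1 + 1 = K + 2 := by ring
    rw [e]
    linarith

/-- Finitely many tasks. -/
lemma finite_stage (ha : ∀ i, 0 ≤ a i) (hs : Summable a) (hx : ∀ i, ‖x i‖ ≤ M)
    (P : ℕ → Seminorm ℝ X) (K : ℕ) : ∃ t : Om, ∀ i < K, th a x P i ≤ P i (comb a x t) := by
  classical
  let W := (i : Fin K) → Fin (((i : ℕ) + 2) ^ 2)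
  let bad : Fin K → Finset W := fun i =>
    Finset.univ.filter fun t => P i (comb a x (ext0 K t)) < th a x P i
  have hW : 0 < Fintype.card W := by
    rw [Fintype.card_pos_iff]
    exact ⟨fun i => ⟨0, zpos i⟩⟩
  have hcard : ∀ i : Fin K, (bad i).card * ((i : ℕ) + 2) ^ 2 ≤ Fintype.card W := by
    intro i
    have h1 : (bad i).card * ((i : ℕ) + 2) ^ 2 =
        ((bad i) ×ˢ (Finset.univ : Finset (Fin (((i : ℕ) + 2) ^ 2)))).card := by
      rw [Finset.card_product, Finset.card_univ, Fintype.card_fin]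
    rw [h1, ← Finset.card_univ]
    refine Finset.card_le_card_of_injOn
      (fun z => Function.update z.1 i z.2) (fun _ _ => Finset.mem_coe.2 (Finset.mem_univ _)) ?_
    rintro ⟨t, u⟩ ht ⟨s, v⟩ hs' huv
    simp only at huv
    have huv' : u = v := by
      have := congrFun huv i
      simpa using this
    have hts : ∀ j, j ≠ i → t j = s j := by
      intro j hj
      have := congrFun huv j
      simpa [Function.update_of_ne hj] using this
    have ht1 : P i (comb a x (ext0 K t)) < th a x P i :=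
      (Finset.mem_filter.1 (Finset.mem_product.1 ht).1).2
    have hs1 : P i (comb a x (ext0 K s)) < th a x P i :=
      (Finset.mem_filter.1 (Finset.mem_product.1 hs').1).2
    have hext : ∀ j : ℕ, j ≠ (i : ℕ) → ext0 K t j = ext0 K s j := by
      intro j hj
      unfold ext0
      split_ifs with h
      · exact hts ⟨j, h⟩ fun h0 => hj (congrArg Fin.val h0)
      · rfl
    have h2 := one_bad ha hs hx P (ext0 K t) (ext0 K s) i hext ht1 hs1
    rw [ext0_of, ext0_of] at h2
    have h3 : t = s := by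
      funext j
      by_cases hj : j = i
      · subst hj
        exact h2
      · exact hts j hj
    rw [h3, huv']
  have hsum : ((Finset.univ.biUnion bad).card : ℝ) < Fintype.card W := by
    have h1 : ((Finset.univ.biUnion bad).card : ℝ) ≤ ∑ i, ((bad i).card : ℝ) := by
      exact_mod_cast Finset.card_biUnion_le
    have h2 : ∀ i : Fin K, ((bad i).card : ℝ) ≤
        (Fintype.card W : ℝ) * (1 / (((i : ℕ) : ℝ) + 2) ^ 2) := by
      intro i
      rw [mul_one_div, le_div_iff₀ (by positivity)]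
      exact_mod_cast hcard i
    have h3 : ∑ i, ((bad i).card : ℝ) ≤ (Fintype.card W : ℝ) * (1 - 1 / ((K : ℝ) + 1)) := by
      refine (Finset.sum_le_sum fun i _ => h2 i).trans ?_
      rw [← Finset.mul_sum]
      exact mul_le_mul_of_nonneg_left (sum_inv K) (Nat.cast_nonneg _)
    have h4 : (0 : ℝ) < 1 / ((K : ℝ) + 1) := by positivity
    have h5 : (0 : ℝ) < Fintype.card W := by exact_mod_cast hW
    nlinarith
  have hne : (Finset.univ.biUnion bad) ≠ Finset.univ := by
    intro h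
    rw [h, Finset.card_univ] at hsum
    exact lt_irrefl _ hsum
  obtain ⟨t, ht⟩ : ∃ t : W, t ∉ Finset.univ.biUnion bad := by
    by_contra hcon
    push Not at hcon
    exact hne (Finset.eq_univ_iff_forall.2 hcon)
  refine ⟨ext0 K t, fun i hi => ?_⟩
  by_contra hlt
  push Not at hlt
  exact ht (Finset.mem_biUnion.2 ⟨⟨i, hi⟩, Finset.mem_univ _,
    Finset.mem_filter.2 ⟨Finset.mem_univ _, hlt⟩⟩)

/-- **Condensation with independent coefficients**: coefficients in `[0, 1]` such that the sum is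
large for ALL seminorms at once, with an explicit polynomial loss. -/
theorem condense (ha : ∀ i, 0 ≤ a i) (hs : Summable a) (hx : ∀ i, ‖x i‖ ≤ M)
    (P : ℕ → Seminorm ℝ X) (hP : ∀ i, Continuous (P i)) :
    ∃ τ : ℕ → ℝ, (∀ i, 0 ≤ τ i ∧ τ i ≤ 1) ∧
      ∀ i : ℕ, a i * P i (x i) / (2 * ((i : ℝ) + 2) ^ 2) ≤ P i (∑' j, (a j * τ j) • x j) := by
  have hcl : ∀ i, IsClosed {t : Om | th a x P i ≤ P i (comb a x t)} := fun i =>
    isClosed_le continuous_const ((hP i).comp (comb_cont ha hs hx))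
  have hne : (univ ∩ ⋂ i, {t : Om | th a x P i ≤ P i (comb a x t)}).Nonempty := by
    refine isCompact_univ.inter_iInter_nonempty _ hcl fun u => ?_
    obtain ⟨K, hK⟩ : ∃ K, ∀ i ∈ u, i < K := ⟨u.sup id + 1, fun i hi =>
      Nat.lt_succ_of_le (Finset.le_sup (f := id) hi)⟩
    obtain ⟨t, ht⟩ := finite_stage ha hs hx P K
    exact ⟨t, mem_univ _, mem_iInter₂.2 fun i hi => ht i (hK i hi)⟩
  obtain ⟨t, -, ht⟩ := hne
  refine ⟨fun i => gv i (t i), fun i => ⟨gv_nn _ _, gv_le _ _⟩, fun i => ?_⟩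
  exact mem_iInter.1 ht i

end Pool.Agent.Q193.RD
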