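import Mathlib
import Pool.Agent.Q193.RD.Abs
set_option autoImplicit false
set_option linter.unusedSectionVars false

/-! Condensation of singularities for almost all choices of the coefficients. -/

namespace Pool.Agent.Q193.RD

open Filter Topology Set MeasureTheory
open scoped ENNReal unitInterval

/-- The cube of the coefficients. -/
abbrev Cu := ℕ → unitInterval

/-- Independent uniform coefficients. -/
noncomputable def PP : Measure Cu :=
  Measure.infinitePi (fun _ : ℕ => (volume : Measure unitInterval))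

instance : IsProbabilityMeasure PP := by unfold PP; infer_instance

lemma upd_meas (i : ℕ) :
    Measurable fun p : Cu × unitInterval => Function.update p.1 i p.2 := by
  rw [measurable_pi_iff]
  intro j
  by_cases h : j = i
  · subst h
    simp only [Function.update_self]
    exact measurable_snd
  · simp only [Function.update_of_ne h]
    exact (measurable_pi_apply j).comp measurable_fst

/-- Resampling one coefficient preserves the measure. -/
lemma upd_map (i : ℕ) : (PP.prod (volume : Measure unitInterval)).map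
    (fun p : Cu × unitInterval => Function.update p.1 i p.2) = PP := by
  classical
  refine Measure.eq_infinitePi (fun _ : ℕ => (volume : Measure unitInterval)) fun s t ht => ?_
  rw [Measure.map_apply (upd_meas i) (MeasurableSet.pi s.countable_toSet fun j _ => ht j)]
  have h1 : (fun p : Cu × unitInterval => Function.update p.1 i p.2) ⁻¹' (Set.pi s t) =
      (Set.pi (s.erase i : Finset ℕ) t) ×ˢ (if i ∈ s then t i else univ) := by
    ext ⟨w, u⟩
    simp only [mem_preimage, Set.mem_pi, mem_prod, Finset.coe_erase]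
    constructor
    · intro h
      refine ⟨fun j hj => ?_, ?_⟩
      · have := h j hj.1
        rwa [Function.update_of_ne (by simpa using hj.2)] at this
      · split_ifs with hi
        · have := h i hi
          rwa [Function.update_self] at this
        · trivial
    · rintro ⟨h1, h2⟩ j hj
      by_cases hji : j = i
      · subst hji
        rw [Function.update_self]
        rw [if_pos (by exact hj)] at h2
        exact h2
      · rw [Function.update_of_ne hji]
        exact h1 j ⟨hj, by simpa using hji⟩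
  rw [h1, Measure.prod_prod]
  unfold PP
  rw [Measure.infinitePi_pi _ fun j _ => ht j]
  split_ifs with hi
  · rw [mul_comm]
    exact Finset.mul_prod_erase s (fun j => (volume : Measure unitInterval) (t j)) hi
  · rw [measure_univ, mul_one, Finset.erase_eq_of_notMem hi]

lemma upd_bound (i : ℕ) {A : Set Cu} (hA : MeasurableSet A) (c : ℝ≥0∞)
    (h : ∀ w : Cu, (volume : Measure unitInterval) {u | Function.update w i u ∈ A} ≤ c) :
    PP A ≤ c := by
  rw [← upd_map i, Measure.map_apply (upd_meas i) hA,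
    Measure.prod_apply ((upd_meas i) hA)]
  calc _ ≤ ∫⁻ _ : Cu, c ∂PP := lintegral_mono fun w => h w
    _ = c := by rw [lintegral_const, measure_univ, mul_one]

lemma vol_small {T : Set unitInterval} {d : ℝ}
    (h : ∀ t ∈ T, ∀ s ∈ T, |(t : ℝ) - s| ≤ d) : (volume : Measure unitInterval) T ≤
      ENNReal.ofReal d := by
  rw [unitInterval.volume_apply]
  refine (Real.volume_le_diam _).trans ?_
  refine Metric.ediam_le fun x hx y hy => ?_
  obtain ⟨t, ht, rfl⟩ := hx
  obtain ⟨s, hs, rfl⟩ := hy
  rw [edist_dist, Real.dist_eq]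
  exact ENNReal.ofReal_le_ofReal (h t ht s hs)

variable {X : Type*} [NormedAddCommGroup X] [NormedSpace ℝ X] [CompleteSpace X]

/-- The random series. -/
noncomputable def rs (a : ℕ → ℝ) (x : ℕ → X) (t : Cu) : X :=
  ∑' i, (a i * (t i : ℝ)) • x i

variable {a : ℕ → ℝ} {x : ℕ → X} {M : ℝ}

lemma rs_term_le (ha : ∀ i, 0 ≤ a i) (hx : ∀ i, ‖x i‖ ≤ M) (t : Cu) (i : ℕ) :
    ‖(a i * (t i : ℝ)) • x i‖ ≤ a i * M := by
  rw [norm_smul, Real.norm_eq_abs, abs_of_nonneg (mul_nonneg (ha i) (t i).2.1)]
  have h1 : a i * (t i : ℝ) ≤ a i := mul_le_of_le_one_right (ha i) (t i).2.2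
  exact mul_le_mul h1 (hx i) (norm_nonneg _) (ha i)

lemma rs_summable (ha : ∀ i, 0 ≤ a i) (hs : Summable a) (hx : ∀ i, ‖x i‖ ≤ M) (t : Cu) :
    Summable fun i => (a i * (t i : ℝ)) • x i :=
  Summable.of_norm_bounded (hs.mul_right M) (rs_term_le ha hx t)

lemma rs_cont (ha : ∀ i, 0 ≤ a i) (hs : Summable a) (hx : ∀ i, ‖x i‖ ≤ M) :
    Continuous (rs a x) := by
  unfold rs
  refine continuous_tsum (fun i => ?_) (hs.mul_right M) (fun i t => rs_term_le ha hx t i)
  fun_prop

lemma rs_update (ha : ∀ i, 0 ≤ a i) (hs : Summable a) (hx : ∀ i, ‖x i‖ ≤ M) (w : Cu) (i : ℕ)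
    (t s : unitInterval) : rs a x (Function.update w i t) - rs a x (Function.update w i s) =
      (a i * ((t : ℝ) - s)) • x i := by
  unfold rs
  rw [← (rs_summable ha hs hx _).tsum_sub (rs_summable ha hs hx _), tsum_eq_single i]
  · rw [← sub_smul, Function.update_self, Function.update_self]
    congr 1
    ring
  · intro j hj
    rw [Function.update_of_ne hj, Function.update_of_ne hj, sub_self]

/-- One requirement fails with small probability. -/
lemma small_prob (ha : ∀ i, 0 ≤ a i) (hs : Summable a) (hx : ∀ i, ‖x i‖ ≤ M)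
    (P : Seminorm ℝ X) (P' : X → ℝ) (hP' : Continuous P')
    (hPP : ∀ u v, P (u - v) ≤ P' u + P' v) (i : ℕ) (hd : 0 < a i * P (x i)) (θ : ℝ) :
    PP {t | P' (rs a x t) < θ * (a i * P (x i))} ≤ ENNReal.ofReal (2 * θ) := by
  have hmeas : MeasurableSet {t | P' (rs a x t) < θ * (a i * P (x i))} :=
    (isOpen_lt (hP'.comp (rs_cont ha hs hx)) continuous_const).measurableSet
  refine upd_bound i hmeas _ fun w => vol_small fun t ht s hs' => ?_
  have h1 := hPP (rs a x (Function.update w i t)) (rs a x (Function.update w i s))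
  rw [rs_update ha hs hx, map_smul_eq_mul, Real.norm_eq_abs, abs_mul,
    abs_of_nonneg (ha i)] at h1
  have h2 : P' (rs a x (Function.update w i t)) < θ * (a i * P (x i)) := ht
  have h3 : P' (rs a x (Function.update w i s)) < θ * (a i * P (x i)) := hs'
  have h4 : |(t : ℝ) - s| * (a i * P (x i)) ≤ 2 * θ * (a i * P (x i)) := by nlinarith
  exact le_of_mul_le_mul_right h4 hd

/-- **Condensation for almost all coefficients**. -/
theorem condense_ae (ha : ∀ i, 0 ≤ a i) (hs : Summable a) (hx : ∀ i, ‖x i‖ ≤ M)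
    (P : ℕ → Seminorm ℝ X) (P' : ℕ → X → ℝ) (hP' : ∀ i, Continuous (P' i))
    (hP0 : ∀ i u, 0 ≤ P' i u) (hPP : ∀ i u v, P i (u - v) ≤ P' i u + P' i v) :
    ∀ᵐ t ∂PP, ∃ C : ℝ, 0 < C ∧ ∀ i : ℕ,
      a i * P i (x i) ≤ C * ((i : ℝ) + 2) ^ 2 * P' i (rs a x t) := by
  have h1 : ∀ i : ℕ, PP {t | 0 < a i * P i (x i) ∧
      P' i (rs a x t) < 1 / ((i : ℝ) + 2) ^ 2 * (a i * P i (x i))} ≤
      ENNReal.ofReal (2 * (1 / ((i : ℝ) + 2) ^ 2)) := by
    intro i
    by_cases hd : 0 < a i * P i (x i)
    · refine (measure_mono ?_).trans (small_prob ha hs hx (P i) (P' i) (hP' i) (hPP i) i hd _)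
      exact fun t ht => ht.2
    · have : {t | 0 < a i * P i (x i) ∧
          P' i (rs a x t) < 1 / ((i : ℝ) + 2) ^ 2 * (a i * P i (x i))} = ∅ := by
        ext t
        rw [mem_empty_iff_false, iff_false]
        exact fun h => absurd h.1 hd
      rw [this, measure_empty]
      exact bot_le
  have hsum : Summable fun i : ℕ => 2 * (1 / ((i : ℝ) + 2) ^ 2) := by
    refine Summable.mul_left 2 (summable_of_sum_range_le (c := 1) (fun i => by positivity)
      fun K => ?_)
    have h2 := sum_inv K
    rw [Fin.sum_univ_eq_sum_range (fun i : ℕ => (1 : ℝ) / ((i : ℝ) + 2) ^ 2) K] at h2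
    have : (0 : ℝ) ≤ 1 / ((K : ℝ) + 1) := by positivity
    linarith
  have h2 : ∀ᵐ t ∂PP, ∀ᶠ i in atTop, t ∉ {t | 0 < a i * P i (x i) ∧
      P' i (rs a x t) < 1 / ((i : ℝ) + 2) ^ 2 * (a i * P i (x i))} := by
    refine ae_eventually_notMem ?_
    refine ne_top_of_le_ne_top ?_ (ENNReal.tsum_le_tsum h1)
    rw [← ENNReal.ofReal_tsum_of_nonneg (fun i => by positivity) hsum]
    exact ENNReal.ofReal_ne_top
  have h3 : ∀ᵐ t ∂PP, ∀ i, 0 < a i * P i (x i) → 0 < P' i (rs a x t) := by
    rw [ae_all_iff]
    intro i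
    by_cases hd : 0 < a i * P i (x i)
    · have h4 : PP {t | P' i (rs a x t) ≤ 0} = 0 := by
        refine le_antisymm (ENNReal.le_of_forall_pos_le_add fun ε hε _ => ?_) bot_le
        rw [zero_add]
        have h5 := small_prob ha hs hx (P i) (P' i) (hP' i) (hPP i) i hd (ε / 2)
        have h6 : ENNReal.ofReal (2 * ((ε : ℝ) / 2)) = ε := by
          rw [mul_div_cancel₀ _ (two_ne_zero), ENNReal.ofReal_coe_nnreal]
        rw [h6] at h5
        refine (measure_mono fun t ht => ?_).trans h5
        have h7 : P' i (rs a x t) ≤ 0 := ht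
        have h8 : (0 : ℝ) < (ε : ℝ) / 2 * (a i * P i (x i)) := by
          have : (0 : ℝ) < ε := hε
          positivity
        exact h7.trans_lt h8
      rw [ae_iff]
      refine measure_mono_null (fun t ht => ?_) h4
      exact not_lt.1 fun h7 => ht fun _ => h7
    · exact Eventually.of_forall fun t h => absurd h hd
  filter_upwards [h2, h3] with t ht1 ht2
  obtain ⟨i0, hi0⟩ := eventually_atTop.1 ht1
  set S : ℝ := ∑ j ∈ Finset.range i0, a j * P j (x j) / P' j (rs a x t) with hS
  have hterm : ∀ j, 0 ≤ a j * P j (x j) / P' j (rs a x t) := fun j =>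
    div_nonneg (mul_nonneg (ha j) (apply_nonneg _ _)) (hP0 j _)
  have hS0 : 0 ≤ S := Finset.sum_nonneg fun j _ => hterm j
  refine ⟨1 + S, by linarith, fun i => ?_⟩
  have hi2 : (1 : ℝ) ≤ ((i : ℝ) + 2) ^ 2 := by
    have : (0 : ℝ) ≤ i := Nat.cast_nonneg i
    nlinarith
  have hp := hP0 i (rs a x t)
  rcases (mul_nonneg (ha i) (apply_nonneg (P i) (x i))).eq_or_lt with h0 | h0
  · rw [← h0]
    positivity
  · by_cases hi : i < i0
    · have h4 := ht2 i h0
      have h5 : a i * P i (x i) / P' i (rs a x t) ≤ S :=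
        Finset.single_le_sum (f := fun j => a j * P j (x j) / P' j (rs a x t))
          (fun j _ => hterm j) (Finset.mem_range.2 hi)
      rw [div_le_iff₀ h4] at h5
      have h6 : S * P' i (rs a x t) ≤ (1 + S) * P' i (rs a x t) :=
        mul_le_mul_of_nonneg_right (by linarith) hp
      have h7 : (1 + S) * P' i (rs a x t) * 1 ≤
          (1 + S) * P' i (rs a x t) * ((i : ℝ) + 2) ^ 2 :=
        mul_le_mul_of_nonneg_left hi2 (by positivity)
      nlinarith
    · have h4 := hi0 i (not_lt.1 hi)
      have h5 := not_lt.1 fun h => h4 ⟨h0, h⟩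
      rw [one_div, inv_mul_le_iff₀ (by positivity)] at h5
      have h6 : ((i : ℝ) + 2) ^ 2 * P' i (rs a x t) ≤
          (1 + S) * (((i : ℝ) + 2) ^ 2 * P' i (rs a x t)) := by
        have : 0 ≤ ((i : ℝ) + 2) ^ 2 * P' i (rs a x t) := by positivity
        nlinarith
      linarith

end Pool.Agent.Q193.RD
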