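import Pool.Agent.Q193.RD.Fou
set_option autoImplicit false
set_option linter.unusedSectionVars false

/-! Almost extremal densities which are smooth, nonnegative and supported in a given small cap. -/

namespace Pool.Agent.Q193.RD

open MeasureTheory Set Metric Filter Topology
open scoped ENNReal NNReal RealInnerProductSpace ContDiff
open Pool.Agent.Q97.RS (ch Fh)

variable {V : Type*} [NormedAddCommGroup V] [InnerProductSpace ℝ V] [FiniteDimensional ℝ V]
  [MeasurableSpace V] [BorelSpace V]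

/-- Smooth approximation. -/
lemma smooth_approx (μ : Measure V) [IsFiniteMeasure μ] (y : V) {ρ : ℝ} (hρ : 0 < ρ) {g : V → ℝ}
    (hg : Measurable g) (h01 : ∀ x, 0 ≤ g x ∧ g x ≤ 1) (hs : ∀ x, x ∉ ball y (ρ / 2) → g x = 0)
    {ε : ℝ} (hε : 0 < ε) : ∃ φ : V → ℝ, ContDiff ℝ ∞ φ ∧ (∀ x, 0 ≤ φ x ∧ φ x ≤ 2) ∧
      (∀ x, x ∉ ball y ρ → φ x = 0) ∧ ∫ x, |g x - φ x| ∂μ ≤ ε := by
  have hmem : MemLp g 1 μ := by
    rw [memLp_one_iff_integrable]
    refine Integrable.of_bound hg.aestronglyMeasurable 1 (Eventually.of_forall fun x => ?_)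
    rw [Real.norm_eq_abs, abs_of_nonneg (h01 x).1]
    exact (h01 x).2
  obtain ⟨g1, -, hg1, hg1c, hg1m⟩ := hmem.exists_hasCompactSupport_eLpNorm_sub_le
    ENNReal.one_ne_top (ε := ENNReal.ofReal (ε / 2)) (by simpa using hε)
  set c : V → ℝ := fun x => max 0 (min 1 (g1 x)) with hc
  have hcc : Continuous c := by fun_prop
  have hc01 : ∀ x, 0 ≤ c x ∧ c x ≤ 1 := fun x =>
    ⟨le_max_left _ _, max_le zero_le_one (min_le_left _ _)⟩
  have hcg : ∀ x, |g x - c x| ≤ |g x - g1 x| := by
    intro x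
    obtain ⟨h1, h2⟩ := h01 x
    simp only [hc]
    rcases le_total (g1 x) 0 with h3 | h3
    · rw [min_eq_right (h3.trans zero_le_one), max_eq_left h3]
      rw [abs_of_nonneg (by linarith), abs_of_nonneg (by linarith)]
      linarith
    · rcases le_total (g1 x) 1 with h4 | h4
      · rw [min_eq_right h4, max_eq_right h3]
      · rw [min_eq_left h4, max_eq_right zero_le_one]
        rw [abs_of_nonpos (by linarith), abs_of_nonpos (by linarith)]
        linarith
  set A : ℝ := μ.real univ with hA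
  have hA0 : 0 ≤ A := measureReal_nonneg
  obtain ⟨η, hη0, hη1, hη2⟩ : ∃ η : ℝ, 0 < η ∧ 2 * η ≤ 1 ∧ 2 * η * A ≤ ε / 2 := by
    refine ⟨min (1 / 2) (ε / (4 * (A + 1))), lt_min (by norm_num) (by positivity), ?_, ?_⟩
    · have := min_le_left (1 / 2 : ℝ) (ε / (4 * (A + 1)))
      linarith
    · have h1 := min_le_right (1 / 2 : ℝ) (ε / (4 * (A + 1)))
      have h2 : ε / (4 * (A + 1)) * (4 * (A + 1)) = ε := by field_simp
      have h3 : 0 ≤ ε / (4 * (A + 1)) := by positivity
      have h4 : min (1 / 2) (ε / (4 * (A + 1))) * A ≤ ε / (4 * (A + 1)) * A :=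
        mul_le_mul_of_nonneg_right h1 hA0
      nlinarith
  obtain ⟨s, hs1, hs2, -⟩ := hcc.exists_contDiff_approx ⊤ (ε := fun _ => η) (by fun_prop)
    (fun _ => hη0)
  let χ : ContDiffBump y := ⟨ρ / 2, ρ, by positivity, by linarith⟩
  refine ⟨fun x => χ x * (s x + η), χ.contDiff.mul (hs1.add contDiff_const), fun x => ?_,
    fun x hx => ?_, ?_⟩
  · have h1 := hs2 x
    rw [Real.dist_eq, abs_lt] at h1
    obtain ⟨h2, h3⟩ := hc01 x
    have h4 : 0 ≤ s x + η := by linarith
    have h5 : s x + η ≤ 2 := by linarith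
    have h6 : 0 ≤ χ x := χ.nonneg
    have h7 : χ x ≤ 1 := χ.le_one
    exact ⟨mul_nonneg h6 h4, by nlinarith⟩
  · have : χ x = 0 := by
      by_contra h0
      have h1 : x ∈ Function.support χ := h0
      rw [χ.support_eq] at h1
      exact hx h1
    simp only [this, zero_mul]
  · have hpt : ∀ x, |g x - χ x * (s x + η)| ≤ |g x - g1 x| + 2 * η := by
      intro x
      have h0 : g x = χ x * g x := by
        by_cases hx : x ∈ ball y (ρ / 2)
        · rw [χ.one_of_mem_closedBall (ball_subset_closedBall hx), one_mul]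
        · rw [hs x hx, mul_zero]
      have h1 := hs2 x
      rw [Real.dist_eq, abs_lt] at h1
      have h6 : 0 ≤ χ x := χ.nonneg
      have h7 : χ x ≤ 1 := χ.le_one
      have h8 : g x - χ x * (s x + η) = χ x * (g x - (s x + η)) := by
        conv_lhs => rw [h0]
        ring
      rw [h8, abs_mul, abs_of_nonneg h6]
      have h9 : |g x - (s x + η)| ≤ |g x - c x| + |c x - (s x + η)| := abs_sub_le _ _ _
      have h10 : |c x - (s x + η)| ≤ 2 * η := by
        rw [abs_le]
        constructor <;> linarith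
      have h11 := hcg x
      have h12 : χ x * |g x - (s x + η)| ≤ 1 * |g x - (s x + η)| :=
        mul_le_mul_of_nonneg_right h7 (abs_nonneg _)
      linarith
    have hi1 : Integrable (fun x => |g x - g1 x|) μ := by
      have := (memLp_one_iff_integrable.1 hmem).sub (memLp_one_iff_integrable.1 hg1m)
      exact this.abs
    have h2 : ∫ x, |g x - χ x * (s x + η)| ∂μ ≤ ∫ x, (|g x - g1 x| + 2 * η) ∂μ :=
      integral_mono_of_nonneg (Eventually.of_forall fun x => abs_nonneg _)
        (hi1.add (integrable_const _)) (Eventually.of_forall hpt)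
    rw [integral_add hi1 (integrable_const _), integral_const, smul_eq_mul] at h2
    have h3 : ∫ x, |g x - g1 x| ∂μ ≤ ε / 2 := by
      have h4 : ∫ x, |g x - g1 x| ∂μ = (eLpNorm (g - g1) 1 μ).toReal := by
        rw [eLpNorm_one_eq_lintegral_enorm, ← integral_norm_eq_lintegral_enorm]
        · rfl
        · exact (hg.aestronglyMeasurable).sub hg1c.aestronglyMeasurable
      rw [h4]
      exact ENNReal.toReal_le_of_le_ofReal (by positivity) hg1
    rw [← hA] at h2
    linarith

/-- Densities in the unit ball supported in the ball `ball y r`. -/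
def Cap (y : V) (r : ℝ) (g : V → ℂ) : Prop :=
  Measurable g ∧ (∀ x, ‖g x‖ ≤ 1) ∧ ∀ x, x ∉ ball y r → g x = 0

lemma Cap.bd {y : V} {r : ℝ} {g : V → ℂ} (h : Cap y r g) : Bd g := ⟨h.1, 1, h.2.1⟩

/-- Any density is the sum of finitely many rotations of densities in a cap. -/
lemma cover (μ : Measure V) [IsFiniteMeasure μ] (hsph : ∀ᵐ x ∂μ, ‖x‖ = 1)
    (hinv : ∀ L : V ≃ₗᵢ[ℝ] V, MeasurePreserving L μ μ) (y : V) (hy : ‖y‖ = 1) {r : ℝ}
    (hr : 0 < r) : ∃ t : Finset V, ∀ g : V → ℂ, Measurable g → (∀ x, ‖g x‖ ≤ 1) →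
      ∃ G : V → V → ℂ, (∀ z ∈ t, Cap y r (G z)) ∧
      ∀ q : ℝ≥0∞, 1 ≤ q → ∀ R : ℝ, nR μ q R g ≤ ∑ z ∈ t, nR μ q R (G z) := by
  classical
  let L : V → V ≃ₗᵢ[ℝ] V := fun z => (ℝ ∙ (z - y))ᗮ.reflection
  have hL : ∀ z, ‖z‖ = 1 → L z z = y := fun z hz => Submodule.reflection_sub (by rw [hz, hy])
  have hopen : ∀ z, IsOpen (L z ⁻¹' ball y r) := fun z => isOpen_ball.preimage (L z).continuous
  obtain ⟨t, ht1, htf, htc⟩ := (isCompact_sphere (0 : V) 1).elim_finite_subcover_image
    (b := sphere 0 1) (c := fun z : V => L z ⁻¹' ball y r) (fun z _ => hopen z)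
    (fun x hx => mem_iUnion₂.2 ⟨x, hx, by
      rw [mem_preimage, hL x (by simpa using hx)]
      exact mem_ball_self hr⟩)
  set T := htf.toFinset with hT
  let cnt : V → ℂ := fun x => ∑ w ∈ T, (L w ⁻¹' ball y r).indicator (fun _ => (1 : ℂ)) x
  have hcm : Measurable cnt := by
    refine Finset.measurable_sum T fun w _ => ?_
    exact measurable_const.indicator (hopen w).measurableSet
  have hcnt : ∀ z ∈ T, ∀ x ∈ L z ⁻¹' ball y r, 1 ≤ ‖cnt x‖ := by
    intro z hz x hx
    have h1 : cnt x = ((∑ w ∈ T, (L w ⁻¹' ball y r).indicator (fun _ => (1 : ℝ)) x : ℝ) : ℂ) := by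
      simp only [cnt]
      push_cast
      refine Finset.sum_congr rfl fun w _ => ?_
      by_cases hw : x ∈ L w ⁻¹' ball y r
      · rw [indicator_of_mem hw, indicator_of_mem hw, Complex.ofReal_one]
      · rw [indicator_of_notMem hw, indicator_of_notMem hw, Complex.ofReal_zero]
    have h2 : (1 : ℝ) ≤ ∑ w ∈ T, (L w ⁻¹' ball y r).indicator (fun _ => (1 : ℝ)) x := by
      have h3 := Finset.single_le_sum
        (f := fun w => (L w ⁻¹' ball y r).indicator (fun _ => (1 : ℝ)) x)
        (fun w _ => indicator_nonneg (fun _ _ => zero_le_one) x) hz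
      rwa [indicator_of_mem hx] at h3
    rw [h1, Complex.norm_real, Real.norm_eq_abs, abs_of_nonneg (by linarith)]
    exact h2
  refine ⟨T, fun g hg hg1 => ?_⟩
  let gz : V → V → ℂ := fun z x =>
    (L z ⁻¹' ball y r).indicator (fun x => g x / cnt x) x
  have hgzm : ∀ z, Measurable (gz z) := fun z => (hg.div hcm).indicator (hopen z).measurableSet
  have hgz1 : ∀ z ∈ T, ∀ x, ‖gz z x‖ ≤ 1 := by
    intro z hz x
    simp only [gz]
    by_cases hx : x ∈ L z ⁻¹' ball y r
    · rw [indicator_of_mem hx, norm_div]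
      have h1 := hcnt z hz x hx
      rw [div_le_one (by linarith)]
      exact (hg1 x).trans h1
    · rw [indicator_of_notMem hx, norm_zero]
      exact zero_le_one
  have hbz : ∀ z ∈ T, Bd (gz z) := fun z hz => ⟨hgzm z, 1, hgz1 z hz⟩
  refine ⟨fun z => gz z ∘ (L z).symm, fun z hz => ⟨(hgzm z).comp (L z).symm.continuous.measurable,
    fun x => hgz1 z hz _, fun x hx => ?_⟩, fun q hq R => ?_⟩
  · have h1 : (L z).symm x ∉ L z ⁻¹' ball y r := by
      rw [mem_preimage, LinearIsometryEquiv.apply_symm_apply]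
      exact hx
    exact indicator_of_notMem h1 (fun x => g x / cnt x)
  · have h1 : g =ᵐ[μ] ∑ z ∈ T, gz z := by
      filter_upwards [hsph] with x hx
      rw [Finset.sum_apply]
      obtain ⟨z, hz, hxz⟩ := mem_iUnion₂.1 (htc (show x ∈ sphere (0 : V) 1 by simpa using hx))
      have hzT : z ∈ T := htf.mem_toFinset.2 hz
      have h2 : cnt x ≠ 0 := by
        intro h0
        have := hcnt z hzT x hxz
        rw [h0, norm_zero] at this
        linarith
      have h3 : ∀ w ∈ T, gz w x =
          (L w ⁻¹' ball y r).indicator (fun _ => (1 : ℂ)) x * (g x / cnt x) := by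
        intro w _
        simp only [gz]
        by_cases hw : x ∈ L w ⁻¹' ball y r
        · rw [indicator_of_mem hw, indicator_of_mem hw, one_mul]
        · rw [indicator_of_notMem hw, indicator_of_notMem hw, zero_mul]
      rw [Finset.sum_congr rfl h3, ← Finset.sum_mul]
      change g x = cnt x * (g x / cnt x)
      rw [mul_div_cancel₀ _ h2]
    rw [nR_congr μ q R h1]
    refine (nR_sum μ hq R T hbz).trans (le_of_eq (Finset.sum_congr rfl fun z hz => ?_))
    exact (nR_rot μ (L z).symm (hinv _) q R (hbz z hz)).symm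

/-- **Almost extremal densities.** -/
theorem extremal (μ : Measure V) [IsFiniteMeasure μ] (hsph : ∀ᵐ x ∂μ, ‖x‖ = 1)
    (hinv : ∀ L : V ≃ₗᵢ[ℝ] V, MeasurePreserving L μ μ) (y : V) (hy : ‖y‖ = 1) {ρ : ℝ}
    (hρ : 0 < ρ) : ∃ N : ℝ, 0 < N ∧ ∀ q : ℝ≥0∞, 1 ≤ q → ∀ R : ℝ, ∃ φ : V → ℝ, ContDiff ℝ ∞ φ ∧
      (∀ x, 0 ≤ φ x ∧ φ x ≤ 2) ∧ (∀ x, x ∉ ball y ρ → φ x = 0) ∧
      ∀ g : V → ℂ, Measurable g → (∀ x, ‖g x‖ ≤ 1) →
        nR μ q R g ≤ ENNReal.ofReal N * nR μ q R (fun x => (φ x : ℂ)) := by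
  classical
  obtain ⟨t, ht⟩ := cover μ hsph hinv y hy (half_pos hρ)
  refine ⟨16 * (t.card + 1), by positivity, fun q hq R => ?_⟩
  set r : (V → ℂ) → ℝ := fun g => (nR μ q R g).toReal with hr
  have htop : ∀ g, nR μ q R g ≠ ⊤ := fun g => (nR_top μ q R g).ne
  have hr0 : ∀ g, 0 ≤ r g := fun g => ENNReal.toReal_nonneg
  have hradd : ∀ g h, Bd g → Bd h → r (g + h) ≤ r g + r h := by
    intro g h hg hh
    have h1 := ENNReal.toReal_mono (ENNReal.add_ne_top.2 ⟨htop g, htop h⟩) (nR_add μ hq R hg hh)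
    rwa [ENNReal.toReal_add (htop g) (htop h)] at h1
  have hrsmul : ∀ (c : ℂ) g, r (c • g) = ‖c‖ * r g := by
    intro c g
    simp only [hr]
    rw [nR_smul, ENNReal.toReal_mul, toReal_enorm]
  set c : ℝ := (volume (ball (0 : V) R) ^ q.toReal⁻¹).toReal with hc
  have hctop : volume (ball (0 : V) R) ^ q.toReal⁻¹ ≠ ⊤ :=
    (ENNReal.rpow_lt_top_of_nonneg (inv_nonneg.2 ENNReal.toReal_nonneg) measure_ball_lt_top.ne).ne
  have hc0 : 0 ≤ c := ENNReal.toReal_nonneg
  have hrle : ∀ g : V → ℂ, r g ≤ c * ∫ x, ‖g x‖ ∂μ := by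
    intro g
    have h1 := ENNReal.toReal_mono (ENNReal.mul_ne_top hctop ENNReal.ofReal_ne_top)
      (nR_le μ q R g)
    rwa [ENNReal.toReal_mul, ENNReal.toReal_ofReal (integral_nonneg fun _ => norm_nonneg _)] at h1
  set A : ℝ := μ.real univ with hA
  have hcapb : ∀ g, Cap y (ρ / 2) g → r g ≤ c * A := by
    intro g hg
    refine (hrle g).trans (mul_le_mul_of_nonneg_left ?_ hc0)
    have h1 : ∫ x, ‖g x‖ ∂μ ≤ ∫ _, (1 : ℝ) ∂μ :=
      integral_mono_of_nonneg (Eventually.of_forall fun x => norm_nonneg _) (integrable_const _)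
        (Eventually.of_forall hg.2.1)
    rwa [integral_const, smul_eq_mul, mul_one] at h1
  set S : Set ℝ := {a | ∃ g, Cap y (ρ / 2) g ∧ r g = a} with hS
  have hSne : S.Nonempty := by
    refine ⟨r 0, 0, ⟨measurable_const, fun x => ?_, fun x _ => rfl⟩, rfl⟩
    simp
  have hSb : BddAbove S := ⟨c * A, fun a ⟨g, hg, hga⟩ => hga ▸ hcapb g hg⟩
  set s : ℝ := sSup S with hs
  have hle : ∀ g, Cap y (ρ / 2) g → r g ≤ s := fun g hg => le_csSup hSb ⟨g, hg, rfl⟩
  have hs0 : 0 ≤ s := by
    obtain ⟨a, g, hg, hga⟩ := hSne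
    exact (hr0 g).trans (hle g hg)
  have hall : ∀ g : V → ℂ, Measurable g → (∀ x, ‖g x‖ ≤ 1) → r g ≤ t.card * s := by
    intro g hg hg1
    obtain ⟨G, hG, hG2⟩ := ht g hg hg1
    have h1 := ENNReal.toReal_mono (ENNReal.sum_ne_top.2 fun z _ => htop (G z)) (hG2 q hq R)
    rw [ENNReal.toReal_sum fun z _ => htop (G z)] at h1
    refine h1.trans ?_
    have h2 := Finset.sum_le_card_nsmul t (fun z => (nR μ q R (G z)).toReal) s
      (fun z hz => hle (G z) (hG z hz))
    rwa [nsmul_eq_mul] at h2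
  have hfin : ∀ φ : V → ℝ, s ≤ 16 * r (fun x => (φ x : ℂ)) → ∀ g : V → ℂ, Measurable g →
      (∀ x, ‖g x‖ ≤ 1) → nR μ q R g ≤ ENNReal.ofReal (16 * (t.card + 1)) *
        nR μ q R (fun x => (φ x : ℂ)) := by
    intro φ hφ g hg hg1
    rw [← ENNReal.toReal_le_toReal (htop g) (ENNReal.mul_ne_top ENNReal.ofReal_ne_top (htop _)),
      ENNReal.toReal_mul, ENNReal.toReal_ofReal (by positivity)]
    have h1 := hall g hg hg1
    have h2 : (0 : ℝ) ≤ t.card := Nat.cast_nonneg _
    have h3 := hr0 (fun x => (φ x : ℂ))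
    change r g ≤ 16 * (t.card + 1) * r (fun x => (φ x : ℂ))
    nlinarith
  rcases hs0.eq_or_lt with hs00 | hspos
  · refine ⟨fun _ => 0, contDiff_const, fun x => ⟨le_rfl, by norm_num⟩, fun _ _ => rfl,
      hfin _ ?_⟩
    rw [← hs00]
    exact mul_nonneg (by norm_num) (hr0 _)
  · obtain ⟨a, ⟨g', hg', rfl⟩, ha⟩ := exists_lt_of_lt_csSup hSne
      (show s / 2 < sSup S by rw [← hs]; linarith)
    -- one of the four parts is large
    obtain ⟨g0, hg0m, hg001, hg0s, hg0⟩ : ∃ g0 : V → ℝ, Measurable g0 ∧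
        (∀ x, 0 ≤ g0 x ∧ g0 x ≤ 1) ∧ (∀ x, x ∉ ball y (ρ / 2) → g0 x = 0) ∧
        s / 8 ≤ r (fun x => (g0 x : ℂ)) := by
      by_contra hcon
      push Not at hcon
      obtain ⟨hm, h1, hsupp⟩ := hg'
      have hre : Measurable fun x => (g' x).re := Complex.measurable_re.comp hm
      have him : Measurable fun x => (g' x).im := Complex.measurable_im.comp hm
      have hre1 : ∀ x, |(g' x).re| ≤ 1 := fun x => (Complex.abs_re_le_norm _).trans (h1 x)
      have him1 : ∀ x, |(g' x).im| ≤ 1 := fun x => (Complex.abs_im_le_norm _).trans (h1 x)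
      have key : ∀ w : V → ℝ, Measurable w → (∀ x, |w x| ≤ 1) → (∀ x, x ∉ ball y (ρ / 2) → w x = 0) →
          r (fun x => ((max 0 (w x) : ℝ) : ℂ)) < s / 8 := by
        intro w hw hw1 hw0
        refine hcon (fun x => max 0 (w x)) (measurable_const.max hw) (fun x => ⟨le_max_left _ _,
          max_le zero_le_one (abs_le.1 (hw1 x)).2⟩) (fun x hx => ?_)
        rw [hw0 x hx, max_self]
      have kb : ∀ w : V → ℝ, Measurable w → (∀ x, |w x| ≤ 1) →
          Bd (fun x => ((max 0 (w x) : ℝ) : ℂ)) := by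
        intro w hw hw1
        refine ⟨Complex.measurable_ofReal.comp (measurable_const.max hw), 1, fun x => ?_⟩
        rw [Complex.norm_real, Real.norm_eq_abs, abs_of_nonneg (le_max_left _ _)]
        exact max_le zero_le_one (abs_le.1 (hw1 x)).2
      have hneg1 : ∀ w : V → ℝ, (∀ x, |w x| ≤ 1) → ∀ x, |-(w x)| ≤ 1 := fun w hw x => by
        rw [abs_neg]; exact hw x
      let f1 : V → ℂ := fun x => ((max 0 (g' x).re : ℝ) : ℂ)
      let f2 : V → ℂ := fun x => ((max 0 (-(g' x).re) : ℝ) : ℂ)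
      let f3 : V → ℂ := fun x => ((max 0 (g' x).im : ℝ) : ℂ)
      let f4 : V → ℂ := fun x => ((max 0 (-(g' x).im) : ℝ) : ℂ)
      have k1 : r f1 < s / 8 := key (fun x => (g' x).re) hre hre1
        (fun x hx => by simp only [hsupp x hx, Complex.zero_re])
      have k2 : r f2 < s / 8 := key (fun x => -(g' x).re) hre.neg (hneg1 _ hre1) (fun x hx => by
        simp only [hsupp x hx, Complex.zero_re, neg_zero])
      have k3 : r f3 < s / 8 := key (fun x => (g' x).im) him him1
        (fun x hx => by simp only [hsupp x hx, Complex.zero_im])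
      have k4 : r f4 < s / 8 := key (fun x => -(g' x).im) him.neg (hneg1 _ him1) (fun x hx => by
        simp only [hsupp x hx, Complex.zero_im, neg_zero])
      have b1 : Bd f1 := kb _ hre hre1
      have b2 : Bd f2 := kb _ hre.neg (hneg1 _ hre1)
      have b3 : Bd f3 := kb _ him him1
      have b4 : Bd f4 := kb _ him.neg (hneg1 _ him1)
      have hdec : g' = (f1 + (-1 : ℂ) • f2) + (Complex.I • f3 + (-Complex.I) • f4) := by
        funext x
        have hmx : ∀ b : ℝ, ((b : ℝ) : ℂ) = ((max 0 b : ℝ) : ℂ) - ((max 0 (-b) : ℝ) : ℂ) := by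
          intro b
          rw [← Complex.ofReal_sub]
          congr 1
          rcases le_total 0 b with hb | hb
          · rw [max_eq_right hb, max_eq_left (by linarith)]
            ring
          · rw [max_eq_left hb, max_eq_right (by linarith)]
            ring
        simp only [Pi.add_apply, Pi.smul_apply, smul_eq_mul, f1, f2, f3, f4]
        have e := Complex.re_add_im (g' x)
        rw [hmx (g' x).re, hmx (g' x).im] at e
        rw [← e]
        simp only [Complex.add_re, Complex.add_im, Complex.sub_re, Complex.sub_im,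
          Complex.mul_re, Complex.mul_im, Complex.ofReal_re, Complex.ofReal_im, Complex.I_re,
          Complex.I_im]
        simp only [mul_zero, mul_one, zero_add, add_zero, sub_self]
        have m1 : max 0 (g' x).re - max 0 (-(g' x).re) = (g' x).re := by
          rcases le_total 0 (g' x).re with hb | hb
          · rw [max_eq_right hb, max_eq_left (by linarith)]
            ring
          · rw [max_eq_left hb, max_eq_right (by linarith)]
            ring
        have m2 : max 0 (g' x).im - max 0 (-(g' x).im) = (g' x).im := by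
          rcases le_total 0 (g' x).im with hb | hb
          · rw [max_eq_right hb, max_eq_left (by linarith)]
            ring
          · rw [max_eq_left hb, max_eq_right (by linarith)]
            ring
        rw [m1, m2]
        ring
      have e1 : r g' ≤ r f1 + r f2 + (r f3 + r f4) := by
        rw [hdec]
        refine (hradd _ _ (b1.add (b2.smul _)) ((b3.smul _).add (b4.smul _))).trans ?_
        have h1 := hradd _ _ b1 (b2.smul (-1))
        have h2 := hradd _ _ (b3.smul Complex.I) (b4.smul (-Complex.I))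
        rw [hrsmul] at h1
        rw [hrsmul, hrsmul] at h2
        simp only [norm_neg, norm_one, one_mul, Complex.norm_I] at h1 h2
        linarith
      linarith
    have hgb : Bd (fun x => (g0 x : ℂ)) := by
      refine ⟨Complex.measurable_ofReal.comp hg0m, 1, fun x => ?_⟩
      rw [Complex.norm_real, Real.norm_eq_abs, abs_of_nonneg (hg001 x).1]
      exact (hg001 x).2
    obtain ⟨φ, hφ1, hφ2, hφ3, hφ4⟩ := smooth_approx μ y hρ hg0m hg001 hg0s
      (ε := s / (16 * (c + 1))) (by positivity)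
    refine ⟨φ, hφ1, hφ2, hφ3, hfin φ ?_⟩
    have hφb : Bd (fun x => (φ x : ℂ)) := by
      refine ⟨Complex.measurable_ofReal.comp hφ1.continuous.measurable, 2, fun x => ?_⟩
      rw [Complex.norm_real, Real.norm_eq_abs, abs_of_nonneg (hφ2 x).1]
      exact (hφ2 x).2
    have h1 : r (fun x => (g0 x : ℂ)) ≤
        r ((fun x => (g0 x : ℂ)) - (fun x => (φ x : ℂ))) + r (fun x => (φ x : ℂ)) := by
      have := hradd _ _ (hgb.sub hφb) hφb
      rwa [sub_add_cancel] at this
    have h2 : r ((fun x => (g0 x : ℂ)) - (fun x => (φ x : ℂ))) ≤ s / 16 := by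
      refine (hrle _).trans ?_
      have h3 : ∫ x, ‖((fun x => (g0 x : ℂ)) - (fun x => (φ x : ℂ))) x‖ ∂μ =
          ∫ x, |g0 x - φ x| ∂μ := by
        refine integral_congr_ae (Eventually.of_forall fun x => ?_)
        simp only [Pi.sub_apply]
        rw [← Complex.ofReal_sub, Complex.norm_real, Real.norm_eq_abs]
      rw [h3]
      refine (mul_le_mul_of_nonneg_left hφ4 hc0).trans ?_
      rw [mul_div_assoc', div_le_div_iff₀ (by positivity) (by norm_num)]
      nlinarith
    linarith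

end Pool.Agent.Q193.RD
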