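import Pool.Agent.Q193.RD.Fou
set_option autoImplicit false
set_option linter.unusedSectionVars false

/-! Comparison of `L^q` norms of bounded functions. -/

namespace Pool.Agent.Q193.RD

open MeasureTheory Set Metric Filter Topology
open scoped ENNReal NNReal RealInnerProductSpace
open Pool.Agent.Q97.RS (ch Fh)

/-- A function bounded by one has nearly decreasing norms. -/
lemma up {α : Type*} [MeasurableSpace α] (μ : Measure α) {f : α → ℂ} (hf : ∀ x, ‖f x‖ₑ ≤ 1)
    {q q0 : ℝ≥0∞} (hq : 1 ≤ q) (hqq : q ≤ q0) : eLpNorm f q0 μ ≤ max 1 (eLpNorm f q μ) := by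
  rcases eq_or_ne q0 ⊤ with h0 | h0
  · rw [h0, eLpNorm_exponent_top]
    refine le_trans ?_ (le_max_left _ _)
    exact essSup_le_of_ae_le _ (Eventually.of_forall hf)
  · have hqt : q ≠ ⊤ := ne_top_of_le_ne_top h0 hqq
    have hq0 : q ≠ 0 := (zero_lt_one.trans_le hq).ne'
    have hq00 : q0 ≠ 0 := ((zero_lt_one.trans_le hq).trans_le hqq).ne'
    rw [eLpNorm_eq_lintegral_rpow_enorm_toReal hq00 h0,
      eLpNorm_eq_lintegral_rpow_enorm_toReal hq0 hqt]
    have h1 : (1 : ℝ) ≤ q.toReal := by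
      rw [← ENNReal.toReal_one]
      exact ENNReal.toReal_mono hqt hq
    have h2 : q.toReal ≤ q0.toReal := ENNReal.toReal_mono h0 hqq
    have h3 : ∫⁻ x, ‖f x‖ₑ ^ q0.toReal ∂μ ≤ ∫⁻ x, ‖f x‖ₑ ^ q.toReal ∂μ :=
      lintegral_mono fun x => ENNReal.rpow_le_rpow_of_exponent_ge (hf x) h2
    refine (ENNReal.rpow_le_rpow h3 (by positivity)).trans ?_
    rcases le_total (∫⁻ x, ‖f x‖ₑ ^ q.toReal ∂μ) 1 with h4 | h4
    · exact (ENNReal.rpow_le_one h4 (by positivity)).trans (le_max_left _ _)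
    · refine (ENNReal.rpow_le_rpow_of_exponent_le h4 ?_).trans (le_max_right _ _)
      exact one_div_le_one_div_of_le (by linarith) h2

variable {V : Type*} [NormedAddCommGroup V] [InnerProductSpace ℝ V] [FiniteDimensional ℝ V]
  [MeasurableSpace V] [BorelSpace V]

/-- The norm is determined by the norms on balls. -/
lemma exhaust {F : V → ℂ} (hF : StronglyMeasurable F) (q : ℝ≥0∞) (T : ℝ≥0∞)
    (h : ∀ n : ℕ, eLpNorm F q (volume.restrict (ball 0 (n : ℝ))) ≤ T) :
    eLpNorm F q volume ≤ T := by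
  have h1 := Lp.eLpNorm_lim_le_liminf_eLpNorm (p := q) (μ := (volume : Measure V))
    (f := fun n : ℕ => (ball (0 : V) (n : ℝ)).indicator F)
    (fun n => (hF.indicator measurableSet_ball).aestronglyMeasurable) F
    (Eventually.of_forall fun x => by
      obtain ⟨n0, hn0⟩ := exists_nat_gt ‖x‖
      refine tendsto_const_nhds.congr' ?_
      filter_upwards [eventually_ge_atTop n0] with n hn
      rw [indicator_of_mem]
      rw [mem_ball, dist_zero_right]
      exact hn0.trans_le (by exact_mod_cast hn))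
  refine h1.trans ?_
  have h2 : ∀ n : ℕ, eLpNorm ((ball (0 : V) (n : ℝ)).indicator F) q volume ≤ T := by
    intro n
    rw [eLpNorm_indicator_eq_eLpNorm_restrict measurableSet_ball]
    exact h n
  calc _ ≤ atTop.liminf fun _ : ℕ => T := liminf_le_liminf (Eventually.of_forall h2)
    _ = T := liminf_const T

lemma rpow_le_max {m : ℝ≥0∞} {e : ℝ} (h0 : 0 ≤ e) (h1 : e ≤ 1) : m ^ e ≤ max 1 m := by
  rcases le_total m 1 with h | h
  · exact (ENNReal.rpow_le_one h h0).trans (le_max_left _ _)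
  · refine (ENNReal.rpow_le_rpow_of_exponent_le h h1).trans ?_
    rw [ENNReal.rpow_one]
    exact le_max_right _ _

/-- Lower bound for a continuous function which does not vanish at a point. -/
lemma low {F : V → ℂ} (hF : Continuous F) (z : V) (hz : z ∈ ball (0 : V) 2) (h0 : F z ≠ 0) :
    ∃ b : ℝ≥0∞, b ≠ 0 ∧ b ≠ ⊤ ∧
    ∀ q : ℝ≥0∞, 1 ≤ q → ∀ R : ℝ, 2 ≤ R → b ≤ eLpNorm F q (volume.restrict (ball 0 R)) := by
  have hc : 0 < ‖F z‖ := norm_pos_iff.2 h0
  have h1 : ∀ᶠ x in 𝓝 z, ‖F z‖ / 2 < ‖F x‖ ∧ x ∈ ball (0 : V) 2 :=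
    ((hF.norm.tendsto z).eventually (lt_mem_nhds (by linarith))).and (isOpen_ball.mem_nhds hz)
  obtain ⟨δ', hδ'0, hδ1⟩ := Metric.eventually_nhds_iff_ball.1 h1
  set m : ℝ≥0∞ := volume (ball z δ') with hm
  have hm0 : m ≠ 0 := (measure_ball_pos _ _ hδ'0).ne'
  have hmt : m ≠ ⊤ := measure_ball_lt_top.ne
  set c : ℝ≥0∞ := ENNReal.ofReal (‖F z‖ / 2) with hcd
  have hc0 : c ≠ 0 := by
    rw [hcd, Ne, ENNReal.ofReal_eq_zero, not_le]
    linarith
  have hM0 : max 1 m ≠ 0 := (zero_lt_one.trans_le (le_max_left _ _)).ne'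
  have hMt : max 1 m ≠ ⊤ := by
    rw [Ne, max_eq_top]
    push Not
    exact ⟨ENNReal.one_ne_top, hmt⟩
  refine ⟨c * m / max 1 m, ?_, ?_, fun q hq R hR => ?_⟩
  · exact (ENNReal.div_pos (mul_ne_zero hc0 hm0) hMt).ne'
  · exact (ENNReal.div_lt_top (ENNReal.mul_ne_top ENNReal.ofReal_ne_top hmt) hM0).ne
  · rw [ENNReal.div_le_iff hM0 hMt]
    have h2 : c * m ≤ eLpNorm F 1 (volume.restrict (ball z δ')) := by
      rw [eLpNorm_one_eq_lintegral_enorm, hm, ← setLIntegral_const]
      refine setLIntegral_mono' measurableSet_ball fun x hx => ?_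
      rw [← ofReal_norm, hcd]
      exact ENNReal.ofReal_le_ofReal (hδ1 x hx).1.le
    refine h2.trans ?_
    have h3 := eLpNorm_le_eLpNorm_mul_rpow_measure_univ (p := 1) (q := q)
      (μ := (volume : Measure V).restrict (ball z δ')) hq
      (hF.aestronglyMeasurable (μ := (volume : Measure V).restrict (ball z δ')))
    rw [Measure.restrict_apply_univ, ← hm] at h3
    refine h3.trans (mul_le_mul' ?_ ?_)
    · exact eLpNorm_mono_measure _ (Measure.restrict_mono
        (fun x hx => ball_subset_ball hR (hδ1 x hx).2) le_rfl)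
    · have h4 : (1 : ℝ) / (1 : ℝ≥0∞).toReal = 1 := by simp
      rw [h4]
      have h5 : 0 ≤ 1 / q.toReal := by positivity
      have h6 : 1 / q.toReal ≤ 1 := by
        rcases eq_or_ne q ⊤ with h7 | h7
        · rw [h7]
          simp
        · have h8 : (1 : ℝ) ≤ q.toReal := by
            rw [← ENNReal.toReal_one]
            exact ENNReal.toReal_mono h7 hq
          rw [div_le_one (by linarith)]
          exact h8
      exact rpow_le_max (by linarith) (by linarith)

/-- The exponents of the list. -/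
noncomputable def ex (k l : ℕ) : ℝ≥0∞ := if l = 0 then ⊤ else ENNReal.ofReal (((k : ℝ) + 1) / l)

lemma ex_toReal (k l : ℕ) : 1 / (ex k l).toReal = l / ((k : ℝ) + 1) := by
  unfold ex
  split_ifs with h
  · subst h
    simp
  · rw [ENNReal.toReal_ofReal (by positivity), one_div_div]

lemma ex_one (k l : ℕ) (hl : l ≤ k + 1) : 1 ≤ ex k l := by
  unfold ex
  split_ifs with h
  · exact le_top
  · rw [← ENNReal.ofReal_one]
    refine ENNReal.ofReal_le_ofReal ?_
    have : (0 : ℝ) < l := by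
      have : 0 < l := by omega
      exact_mod_cast this
    rw [le_div_iff₀ this, one_mul]
    exact_mod_cast hl

/-- Every exponent is close to an exponent of the list. -/
lemma ex_near (k : ℕ) {q : ℝ≥0∞} (hq : 1 ≤ q) : ∃ l : ℕ, l ≤ k + 1 ∧ q ≤ ex k l ∧
    0 ≤ 1 / q.toReal - 1 / (ex k l).toReal ∧
    1 / q.toReal - 1 / (ex k l).toReal ≤ 1 / ((k : ℝ) + 1) := by
  set θ : ℝ := 1 / q.toReal with hθ
  have hθ0 : 0 ≤ θ := by positivity
  have hθ1 : θ ≤ 1 := by
    rcases eq_or_ne q ⊤ with h7 | h7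
    · rw [hθ, h7]
      simp
    · have h8 : (1 : ℝ) ≤ q.toReal := by
        rw [← ENNReal.toReal_one]
        exact ENNReal.toReal_mono h7 hq
      rw [hθ, div_le_one (by linarith)]
      exact h8
  set l : ℕ := ⌊((k : ℝ) + 1) * θ⌋₊ with hl
  have hk : (0 : ℝ) < (k : ℝ) + 1 := by positivity
  have h1 : (l : ℝ) ≤ ((k : ℝ) + 1) * θ := Nat.floor_le (by positivity)
  have h2 : ((k : ℝ) + 1) * θ < l + 1 := Nat.lt_floor_add_one _
  have h3 : (l : ℝ) / ((k : ℝ) + 1) ≤ θ := by
    rw [div_le_iff₀ hk]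
    linarith
  refine ⟨l, ?_, ?_, ?_, ?_⟩
  · have h4 : (l : ℝ) ≤ (k : ℝ) + 1 := h1.trans (mul_le_of_le_one_right hk.le hθ1)
    exact_mod_cast h4
  · unfold ex
    split_ifs with h0
    · exact le_top
    · have hl0 : (0 : ℝ) < l := by
        have : 0 < l := Nat.pos_of_ne_zero h0
        exact_mod_cast this
      have hθp : 0 < θ := lt_of_lt_of_le (by positivity) h3
      have hqp : 0 < q.toReal := by
        by_contra hcon
        have : q.toReal = 0 := le_antisymm (not_lt.1 hcon) ENNReal.toReal_nonneg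
        rw [hθ, this] at hθp
        simp at hθp
      have hqt : q ≠ ⊤ := by
        intro h
        rw [h] at hqp
        simp at hqp
      rw [← ENNReal.ofReal_toReal hqt]
      refine ENNReal.ofReal_le_ofReal ?_
      rw [le_div_iff₀ hl0]
      have h4 : θ * q.toReal = 1 := by
        rw [hθ]
        field_simp
      nlinarith
  · rw [ex_toReal]
    linarith
  · rw [ex_toReal, sub_le_iff_le_add]
    have h4 : 1 / ((k : ℝ) + 1) + (l : ℝ) / ((k : ℝ) + 1) = ((l : ℝ) + 1) / ((k : ℝ) + 1) := by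
      ring
    rw [h4, le_div_iff₀ hk]
    linarith

/-- On the ball of radius `2^(k+1)` the norms with close exponents are comparable. -/
lemma mid : ∃ C : ℝ, 0 < C ∧ ∀ (k : ℕ) (e : ℝ), 0 ≤ e → e ≤ 1 / ((k : ℝ) + 1) →
    volume (ball (0 : V) (2 ^ (k + 1))) ^ e ≤ ENNReal.ofReal C := by
  set v : ℝ := max 1 (volume (ball (0 : V) 1)).toReal with hv
  have hv1 : 1 ≤ v := le_max_left _ _
  set d : ℕ := Module.finrank ℝ V with hd
  refine ⟨v * 2 ^ d, by positivity, fun k e he0 he1 => ?_⟩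
  have h1 : volume (ball (0 : V) (2 ^ (k + 1))) ≤ ENNReal.ofReal (v * (2 ^ (k + 1)) ^ d) := by
    rw [Measure.addHaar_ball_of_pos _ _ (by positivity), mul_comm,
      ENNReal.ofReal_mul (by positivity)]
    gcongr
    rw [← ENNReal.ofReal_toReal (measure_ball_lt_top (μ := (volume : Measure V))
      (x := 0) (r := 1)).ne]
    exact ENNReal.ofReal_le_ofReal (le_max_right _ _)
  refine (ENNReal.rpow_le_rpow h1 he0).trans ?_
  have hx1 : 1 ≤ v * ((2 : ℝ) ^ (k + 1)) ^ d := by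
    have h2 : (1 : ℝ) ≤ ((2 : ℝ) ^ (k + 1)) ^ d := one_le_pow₀ (one_le_pow₀ (by norm_num))
    nlinarith
  rw [ENNReal.ofReal_rpow_of_pos (by positivity)]
  refine ENNReal.ofReal_le_ofReal ?_
  have hk : (0 : ℝ) < (k : ℝ) + 1 := by positivity
  calc (v * ((2 : ℝ) ^ (k + 1)) ^ d) ^ e ≤ (v * ((2 : ℝ) ^ (k + 1)) ^ d) ^ (1 / ((k : ℝ) + 1)) :=
        Real.rpow_le_rpow_of_exponent_le hx1 he1
    _ = v ^ (1 / ((k : ℝ) + 1)) * (((2 : ℝ) ^ (k + 1)) ^ d) ^ (1 / ((k : ℝ) + 1)) :=
        Real.mul_rpow (by positivity) (by positivity)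
    _ ≤ v * 2 ^ d := by
        refine mul_le_mul ?_ (le_of_eq ?_) (by positivity) (by positivity)
        · calc v ^ (1 / ((k : ℝ) + 1)) ≤ v ^ (1 : ℝ) := by
                refine Real.rpow_le_rpow_of_exponent_le hv1 ?_
                rw [div_le_one hk]
                have : (0 : ℝ) ≤ k := Nat.cast_nonneg k
                linarith
            _ = v := Real.rpow_one v
        · rw [← pow_mul, mul_comm (k + 1) d, pow_mul, ← Real.rpow_natCast ((2 : ℝ) ^ d) (k + 1),
            ← Real.rpow_mul (by positivity)]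
          have : ((k + 1 : ℕ) : ℝ) * (1 / ((k : ℝ) + 1)) = 1 := by
            push_cast
            field_simp
          rw [this, Real.rpow_one]

/-- A cofinal sequence. -/
lemma cofinal (F : Set ℝ≥0∞) : ∃ D : ℕ → ℝ≥0∞, (∀ l, D l ∈ F ∨ D l = 1) ∧
    ∀ q ∈ F, ∃ l, q ≤ D l ∧ D l ∈ F := by
  rcases F.eq_empty_or_nonempty with h | h
  · exact ⟨fun _ => 1, fun l => Or.inr rfl, fun q hq => by simp [h] at hq⟩
  · by_cases hs : sSup F ∈ F
    · exact ⟨fun _ => sSup F, fun l => Or.inl hs, fun q hq => ⟨0, le_sSup hq, hs⟩⟩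
    · obtain ⟨u, -, hu, huF⟩ := exists_seq_tendsto_sSup h (OrderTop.bddAbove F)
      refine ⟨u, fun l => Or.inl (huF l), fun q hq => ?_⟩
      have h1 : q < sSup F := lt_of_le_of_ne (le_sSup hq) fun h0 => hs (h0 ▸ hq)
      obtain ⟨l, hl⟩ := (hu.eventually (lt_mem_nhds h1)).exists
      exact ⟨l, hl.le, huF l⟩

end Pool.Agent.Q193.RD
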